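import Pool.Agent.Lib.MP_efa98f_al.Four68.Ident

/-! The unit trick with a non-unimodular upper right block, for `2×2` blocks. -/

set_option autoImplicit false

namespace Pool.Agent.Lib.MP_efa98f_al

open Matrix

theorem M2_smul_cancel {l : ℤ} (hl : l ≠ 0) {X Y : M2} (h : l • X = l • Y) : X = Y := by
  ext i j
  have := congrFun (congrFun h i) j
  simpa [hl] using this

theorem core2 (s l a b c d f g τ t : ℤ) (A C D Mp Mpi : M2)
    (hl : l ≠ 0) (hc : c ≠ 0) (hdet : a*d - b*c = 1) (hn : f^2 + τ*f*g + l*c*g^2 = 1) (hf : c ∣ f - a)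
    (ht : τ = s + t)
    (hD1 : l ∣ D 0 1 - f*b) (hD2 : l ∣ D 1 1 - f*d)
    (hMp : Mp * Mpi = 1) (hMpi : Mpi * Mp = 1)
    (hW : (D * !![l, 0; -s, 1] * A - l • C) * Mp * !![1, 0; s, l] = l • !![a, b; c, d]) :
    ∃ X1 X2 X3 X4 X5 : M2, b4 A !![1, 0; s, l] C D =
      b4 1 0 X1 1 * b4 1 X2 0 1 * b4 1 0 X3 1 * b4 1 X4 0 1 * b4 1 0 X5 1 *
        b4 (!![d - t, -1; 1 - (d-t)*(a+t), a + t] * Mpi) 0 0 1 := by
  obtain ⟨φ, hφ⟩ := hf
  have hfa : f = a + c * φ := by linear_combination hφ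
  obtain ⟨δ1, hδ1⟩ := hD1
  obtain ⟨δ2, hδ2⟩ := hD2
  have hD01 : D 0 1 = f*b + l*δ1 := by linear_combination hδ1
  have hD11 : D 1 1 = f*d + l*δ2 := by linear_combination hδ2
  obtain ⟨D00, hD00⟩ : ∃ x, x = D 0 0 := ⟨_, rfl⟩
  obtain ⟨D10, hD10⟩ : ∃ x, x = D 1 0 := ⟨_, rfl⟩
  have hDeq : D = !![D00, f*b + l*δ1; D10, f*d + l*δ2] := by
    apply M2_ext
    · simp [hD00]
    · simp [hD01]
    · simp [hD10]
    · simp [hD11]
  obtain ⟨k1, hk1⟩ : ∃ k1, k1 = f*d + l*g*c := ⟨_, rfl⟩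
  obtain ⟨k2, hk2⟩ : ∃ k2, k2 = -(f*b + l*g*a) := ⟨_, rfl⟩
  obtain ⟨z3, hz3⟩ : ∃ z3, z3 = g*d - (f + g*τ) := ⟨_, rfl⟩
  obtain ⟨k4, hk4⟩ : ∃ k4, k4 = a*(f + g*τ) - g*b*c := ⟨_, rfl⟩
  obtain ⟨z1, hz1⟩ : ∃ z1, z1 = b + φ*d + l*g := ⟨_, rfl⟩
  obtain ⟨K, hK⟩ : ∃ K : M2, K = !![k1, k2; c*z3, k4] := ⟨_, rfl⟩
  obtain ⟨Ki, hKi⟩ : ∃ Ki : M2, Ki = !![k4, -k2; -(c*z3), k1] := ⟨_, rfl⟩
  obtain ⟨u, hu⟩ : ∃ u : M2, u = !![0, -1; c, t] := ⟨_, rfl⟩
  obtain ⟨Z, hZ⟩ : ∃ Z : M2, Z = !![z1*t - k2, z1; z3*t - k4 + 1, z3] := ⟨_, rfl⟩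
  obtain ⟨Kh, hKh⟩ : ∃ Kh : M2, Kh =
      !![k4 - z3*t, -z3; c*(z1*t-k2) + t*(z3*t-k4+1), 1 + c*z1 + t*z3] := ⟨_, rfl⟩
  obtain ⟨Khi, hKhi⟩ : ∃ Khi : M2, Khi =
      !![1 + c*z1 + t*z3, z3; -(c*(z1*t-k2) + t*(z3*t-k4+1)), k4 - z3*t] := ⟨_, rfl⟩
  obtain ⟨y1, hy1⟩ : ∃ y1, y1 = f*d*δ1 + g*c*(f*b+l*δ1) - f*b*δ2 - g*a*(f*d+l*δ2) := ⟨_, rfl⟩
  obtain ⟨y3, hy3⟩ : ∃ y3, y3 = -(c*g^2) + c*z3*δ1 + k4*δ2 := ⟨_, rfl⟩
  obtain ⟨Y, hY⟩ : ∃ Y : M2, Y = !![k1*D00 + k2*D10 - 1 - s*y1, y1; c*z3*D00 + k4*D10 - s*y3, y3] :=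
    ⟨_, rfl⟩
  obtain ⟨M, hM⟩ : ∃ M : M2, M = !![1, 0; s, l] := ⟨_, rfl⟩
  obtain ⟨Mt, hMt⟩ : ∃ Mt : M2, Mt = !![l, 0; -s, 1] := ⟨_, rfl⟩
  obtain ⟨E, hE⟩ : ∃ E : M2, E = !![a, b; c, d] := ⟨_, rfl⟩
  obtain ⟨ep, hep⟩ : ∃ ep : M2, ep = !![f, -(l*g); g*c, f + g*τ] := ⟨_, rfl⟩
  obtain ⟨E2, hE2⟩ : ∃ E2 : M2, E2 = !![d - t, -1; 1 - (d-t)*(a+t), a + t] := ⟨_, rfl⟩
  obtain ⟨E2i, hE2i⟩ : ∃ E2i : M2, E2i = !![a + t, 1; -(1 - (d-t)*(a+t)), d - t] := ⟨_, rfl⟩
  have hdK : k1 * k4 - k2 * (c * z3) = 1 := by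
    subst hk1 hk2 hz3 hk4
    linear_combination (a*d - b*c) * hn + hdet
  have hdKh : (k4 - z3*t) * (1 + c*z1 + t*z3) + z3 * (c*(z1*t-k2) + t*(z3*t-k4+1)) = 1 := by
    have e : (k4 - z3*t) * (1 + c*z1 + t*z3) + z3 * (c*(z1*t-k2) + t*(z3*t-k4+1)) =
        k4 * (1 + c * z1) - k2 * (c * z3) := by ring
    have e2 : 1 + c * z1 = k1 := by
      rw [hz1, hk1, hfa]
      linear_combination -hdet
    rw [e, e2]
    linear_combination hdK
  have hcz : 1 + c * z1 = k1 := by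
    rw [hz1, hk1, hfa]
    linear_combination -hdet
  have q1 : Ki * K = 1 := by
    rw [hKi, hK]
    apply M2_ext
    · simp [Matrix.mul_apply, Fin.sum_univ_two]; linear_combination hdK
    · simp [Matrix.mul_apply, Fin.sum_univ_two]; ring
    · simp [Matrix.mul_apply, Fin.sum_univ_two]; ring
    · simp [Matrix.mul_apply, Fin.sum_univ_two]; linear_combination hdK
  have q2 : K * Ki = 1 := by
    rw [hKi, hK]
    apply M2_ext
    · simp [Matrix.mul_apply, Fin.sum_univ_two]; linear_combination hdK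
    · simp [Matrix.mul_apply, Fin.sum_univ_two]; ring
    · simp [Matrix.mul_apply, Fin.sum_univ_two]; ring
    · simp [Matrix.mul_apply, Fin.sum_univ_two]; linear_combination hdK
  have q3 : Kh * Khi = 1 := by
    rw [hKh, hKhi]
    apply M2_ext
    · simp [Matrix.mul_apply, Fin.sum_univ_two]; linear_combination hdKh
    · simp [Matrix.mul_apply, Fin.sum_univ_two]; ring
    · simp [Matrix.mul_apply, Fin.sum_univ_two]; ring
    · simp [Matrix.mul_apply, Fin.sum_univ_two]; linear_combination hdKh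
  have q4 : K = 1 + Z * u := by
    rw [hK, hZ, hu]
    apply M2_ext
    · simp [Matrix.mul_apply, Fin.sum_univ_two]; linear_combination -hcz
    · simp [Matrix.mul_apply, Fin.sum_univ_two]
    · simp [Matrix.mul_apply, Fin.sum_univ_two]; ring
    · simp [Matrix.mul_apply, Fin.sum_univ_two]; ring
  have q5 : Kh = 1 + u * Z := by
    rw [hKh, hZ, hu]
    apply M2_ext
    · simp [Matrix.mul_apply, Fin.sum_univ_two]
    · simp [Matrix.mul_apply, Fin.sum_univ_two]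
    · simp [Matrix.mul_apply, Fin.sum_univ_two]
    · simp [Matrix.mul_apply, Fin.sum_univ_two]; ring
  have q6 : K * D = 1 + Y * M := by
    rw [hK, hDeq, hY, hM]
    apply M2_ext
    · simp [Matrix.mul_apply, Fin.sum_univ_two]; ring
    · simp [Matrix.mul_apply, Fin.sum_univ_two]
      subst hk1 hk2 hy1
      ring
    · simp [Matrix.mul_apply, Fin.sum_univ_two]; ring
    · simp [Matrix.mul_apply, Fin.sum_univ_two]
      subst hk4 hz3 hy3
      linear_combination f * (f + g*τ) * hdet + hn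
  have q7 : K * E = ep := by
    rw [hK, hE, hep]
    subst hk1 hk2 hk4 hz3
    apply M2_ext
    · simp [Matrix.mul_apply, Fin.sum_univ_two]; linear_combination f * hdet
    · simp [Matrix.mul_apply, Fin.sum_univ_two]; linear_combination (-(l*g)) * hdet
    · simp [Matrix.mul_apply, Fin.sum_univ_two]; linear_combination (g*c) * hdet
    · simp [Matrix.mul_apply, Fin.sum_univ_two]; linear_combination (f + g*τ) * hdet
  have q8 : Kh * E2 * M = M * ep := by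
    obtain ⟨ua, hua⟩ : ∃ ua : M2, ua = !![t, 1; -c, 0] := ⟨_, rfl⟩
    have w1 : u * ua = c • (1 : M2) := by
      rw [hu, hua]
      apply M2_ext
      · simp [Matrix.mul_apply, Fin.sum_univ_two]
      · simp [Matrix.mul_apply, Fin.sum_univ_two]
      · simp [Matrix.mul_apply, Fin.sum_univ_two]; ring
      · simp [Matrix.mul_apply, Fin.sum_univ_two]
    have w2 : E2 * u = u * E := by
      rw [hu, hE, hE2]
      apply M2_ext
      · simp [Matrix.mul_apply, Fin.sum_univ_two]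
      · simp [Matrix.mul_apply, Fin.sum_univ_two]; ring
      · simp [Matrix.mul_apply, Fin.sum_univ_two]; ring
      · simp [Matrix.mul_apply, Fin.sum_univ_two]
        linear_combination hdet
    have w3 : Kh * u = u * K := by
      rw [q4, q5]
      noncomm_ring
    have w4 : u * ep * ua * M = c • (M * ep) := by
      rw [hu, hep, hua, hM, ht]
      apply M2_ext
      · simp [Matrix.mul_apply, Fin.sum_univ_two]; ring
      · simp [Matrix.mul_apply, Fin.sum_univ_two]; ring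
      · simp [Matrix.mul_apply, Fin.sum_univ_two]; ring
      · simp [Matrix.mul_apply, Fin.sum_univ_two]; ring
    apply M2_smul_cancel hc
    rw [← w4]
    have w5 : u * ep = Kh * E2 * u := by
      rw [mul_assoc, w2, ← mul_assoc, w3, mul_assoc, q7]
    rw [w5, mul_assoc (Kh * E2), w1]
    simp only [mul_smul_comm, smul_mul_assoc, mul_one]
  have q9 : M * Mt = l • (1 : M2) := by
    rw [hM, hMt]
    apply M2_ext
    · simp [Matrix.mul_apply, Fin.sum_univ_two]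
    · simp [Matrix.mul_apply, Fin.sum_univ_two]
    · simp [Matrix.mul_apply, Fin.sum_univ_two]; ring
    · simp [Matrix.mul_apply, Fin.sum_univ_two]
  have q10 : E2i * E2 = 1 := by
    rw [hE2i, hE2]
    apply M2_ext
    · simp [Matrix.mul_apply, Fin.sum_univ_two]; ring
    · simp [Matrix.mul_apply, Fin.sum_univ_two]
    · simp [Matrix.mul_apply, Fin.sum_univ_two]
      try ring
    · simp [Matrix.mul_apply, Fin.sum_univ_two]
      try ring
  have hw : (Mp * E2i) * (E2 * Mpi) = 1 := by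
    have : (Mp * E2i) * (E2 * Mpi) = Mp * (E2i * E2) * Mpi := by noncomm_ring
    rw [this, q10, mul_one, hMp]
  have hA : Kh * (E2 * Mpi) = A + M * (Y * A) - M * (K * C) := by
    obtain ⟨R, hR⟩ : ∃ R, R = A + M * (Y * A) - M * (K * C) := ⟨_, rfl⟩
    rw [← hR]
    have r1 : l • R = M * K * (D * Mt * A - l • C) := by
      have e1 : M * K * (D * Mt * A - l • C) = M * (K * D) * (Mt * A) - l • (M * (K * C)) := by
        rw [mul_sub, mul_smul_comm]
        noncomm_ring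
      have e2 : M * (1 + Y * M) * (Mt * A) = (M * Mt) * A + M * Y * (M * Mt) * A := by noncomm_ring
      rw [e1, q6, e2, q9, hR]
      simp only [smul_mul_assoc, mul_smul_comm, one_mul, mul_one, smul_sub, smul_add]
      rw [mul_assoc M Y A]
    rw [← hM, ← hMt, ← hE] at hW
    have r2 : l • (R * Mp * M) = l • (Kh * E2 * M) := by
      have : l • (R * Mp * M) = (l • R) * Mp * M := by
        simp only [smul_mul_assoc]
      rw [this, r1]
      have e3 : M * K * (D * Mt * A - l • C) * Mp * M =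
          M * K * ((D * Mt * A - l • C) * Mp * M) := by
        simp only [mul_assoc]
      rw [e3, hW, mul_smul_comm, mul_assoc, q7, q8]
    have r3 := M2_smul_cancel hl r2
    have r4 : l • (R * Mp) = l • (Kh * E2) := by
      have e4 : R * Mp * M * Mt = Kh * E2 * M * Mt := by rw [r3]
      rw [mul_assoc (R * Mp), mul_assoc (Kh * E2), q9, mul_smul_comm, mul_smul_comm, mul_one,
        mul_one] at e4
      exact e4
    have r5 := M2_smul_cancel hl r4
    rw [← mul_assoc, ← r5, mul_assoc, hMp, mul_one]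
  rw [← hM]
  have key := five_gen K Ki Kh Khi u Z M Y A C D (E2 * Mpi) (Mp * E2i) q1 q2 q3 q4 q5 q6 hw hA
  rw [hE2] at key
  exact ⟨_, _, _, _, _, key⟩

end Pool.Agent.Lib.MP_efa98f_al
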