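import Pool.Agent.Lib.MP_efa98f_al.Four68.Core2
import Pool.Agent.Lib.MP_efa98f_al.H92.Part4
import Pool.Agent.Lib.MP_efa98f_al.H92.Letters3
import Pool.Agent.Lib.MP_efa98f_al.FourPrep54

/-! Gluing of the identity, the letters and the number theory. -/

set_option autoImplicit false

namespace Pool.Agent.Lib.MP_efa98f_al

open Matrix

/-- The first row of `W1 = D Mt A - l C` is primitive, and its determinant is `l`. -/
theorem w1_facts (h : SLn 4) (A C D : M2) (s l : ℤ) (hh : h.1 = b4 A !![1, 0; s, l] C D)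
    (hD : IsCoprime (D 0 1) l) :
    ∃ w11 w12 w21 w22 : ℤ, D * !![l, 0; -s, 1] * A - l • C = !![w11, w12; w21, w22] ∧
      w11 * w22 - w12 * w21 = l ∧ IsCoprime w11 w12 ∧
      l ∣ D 0 1 * w21 - D 1 1 * w11 ∧ l ∣ D 0 1 * w22 - D 1 1 * w12 := by
  obtain ⟨θ1, hθ1⟩ : ∃ x, x = -s * A 0 0 + A 1 0 := ⟨_, rfl⟩
  obtain ⟨θ2, hθ2⟩ : ∃ x, x = -s * A 0 1 + A 1 1 := ⟨_, rfl⟩
  obtain ⟨w11, hw11⟩ : ∃ x, x = l * (D 0 0 * A 0 0 - C 0 0) + D 0 1 * θ1 := ⟨_, rfl⟩
  obtain ⟨w12, hw12⟩ : ∃ x, x = l * (D 0 0 * A 0 1 - C 0 1) + D 0 1 * θ2 := ⟨_, rfl⟩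
  obtain ⟨w21, hw21⟩ : ∃ x, x = l * (D 1 0 * A 0 0 - C 1 0) + D 1 1 * θ1 := ⟨_, rfl⟩
  obtain ⟨w22, hw22⟩ : ∃ x, x = l * (D 1 0 * A 0 1 - C 1 1) + D 1 1 * θ2 := ⟨_, rfl⟩
  have hdet : w11 * w22 - w12 * w21 = l := by
    have h1 := h.2
    rw [hh] at h1
    have h2 : (b4 A !![1, 0; s, l] C D).det * l = w11 * w22 - w12 * w21 := by
      subst hw11 hw12 hw21 hw22 hθ1 hθ2
      simp [b4, Matrix.det_succ_row_zero, Fin.sum_univ_succ, Fin.succAbove]
      ring
    rw [← h2, h1, one_mul]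
  -- the unimodular row
  obtain ⟨x, y, z, hxyz⟩ : ∃ x y z : ℤ, θ1 * x + θ2 * y + l * z = 1 := by
    have h1 : h.1 * h⁻¹.1 = 1 := by rw [← SL_val_mul, mul_inv_cancel]; rfl
    have e01 := congrFun (congrFun h1 0) 1
    have e11 := congrFun (congrFun h1 1) 1
    rw [Matrix.mul_apply, Fin.sum_univ_four, hh] at e01 e11
    rw [Matrix.one_apply_ne (by decide)] at e01
    rw [Matrix.one_apply_eq] at e11
    simp [b4] at e01 e11
    refine ⟨h⁻¹.1 0 1, h⁻¹.1 1 1, h⁻¹.1 3 1, ?_⟩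
    rw [hθ1, hθ2]
    simp
    linear_combination e11 - s * e01
  refine ⟨w11, w12, w21, w22, ?_, hdet, ?_, ?_, ?_⟩
  · subst hw11 hw12 hw21 hw22 hθ1 hθ2
    apply M2_ext
    · simp [Matrix.mul_apply, Fin.sum_univ_two, -zsmul_eq_mul]; ring
    · simp [Matrix.mul_apply, Fin.sum_univ_two, -zsmul_eq_mul]; ring
    · simp [Matrix.mul_apply, Fin.sum_univ_two, -zsmul_eq_mul]; ring
    · simp [Matrix.mul_apply, Fin.sum_univ_two, -zsmul_eq_mul]; ring
  · obtain ⟨p, q, hpq⟩ := hD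
    obtain ⟨k, hk⟩ : ∃ k, k = -(D 0 1 * z) + (D 0 0 * A 0 0 - C 0 0) * x +
      (D 0 0 * A 0 1 - C 0 1) * y := ⟨_, rfl⟩
    refine ⟨p * x - (p * k - q) * w22, p * y + (p * k - q) * w21, ?_⟩
    have e1 : w11 * x + w12 * y = D 0 1 + l * k := by
      rw [hw11, hw12, hk]
      linear_combination D 0 1 * hxyz
    linear_combination p * e1 + hpq - (p * k - q) * hdet
  · refine ⟨D 0 1 * (D 1 0 * A 0 0 - C 1 0) - D 1 1 * (D 0 0 * A 0 0 - C 0 0), ?_⟩
    rw [hw21, hw11]; ring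
  · refine ⟨D 0 1 * (D 1 0 * A 0 1 - C 1 1) - D 1 1 * (D 0 0 * A 0 1 - C 0 1), ?_⟩
    rw [hw22, hw12]; ring

/-- Conjugation of a five block product by a block diagonal matrix. -/
theorem conj_five (X1 X2 X3 X4 X5 w L Li : M2) (h1 : L * Li = 1) (h2 : Li * L = 1) :
    b4 1 0 0 Li * (b4 1 0 X1 1 * b4 1 X2 0 1 * b4 1 0 X3 1 * b4 1 X4 0 1 * b4 1 0 X5 1 *
      b4 w 0 0 1) * b4 1 0 0 L =
    b4 1 0 (Li * X1) 1 * b4 1 (X2 * L) 0 1 * b4 1 0 (Li * X3) 1 * b4 1 (X4 * L) 0 1 *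
      b4 1 0 (Li * X5) 1 * b4 w 0 0 1 := by
  have hC : ∀ X : M2, b4 1 0 0 Li * b4 1 0 X 1 = b4 1 0 (Li * X) 1 * b4 1 0 0 Li := by
    intro X
    rw [b4_mul, b4_mul]
    congr 1 <;> noncomm_ring
  have hR : ∀ X : M2, b4 1 0 0 Li * b4 1 X 0 1 = b4 1 (X * L) 0 1 * b4 1 0 0 Li := by
    intro X
    rw [b4_mul, b4_mul]
    have : X * L * Li = X := by rw [mul_assoc, h1, mul_one]
    congr 1
    · noncomm_ring
    · rw [this]; noncomm_ring
    · noncomm_ring
    · noncomm_ring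
  have hD : b4 1 0 0 Li * b4 w 0 0 1 = b4 w 0 0 1 * b4 1 0 0 Li := by
    rw [b4_mul, b4_mul]
    congr 1 <;> noncomm_ring
  have hL : b4 1 0 0 Li * b4 1 0 0 L = 1 := by
    rw [b4_mul, ← b4_one]
    congr 1
    · noncomm_ring
    · noncomm_ring
    · noncomm_ring
    · rw [h2]; noncomm_ring
  calc b4 1 0 0 Li * (b4 1 0 X1 1 * b4 1 X2 0 1 * b4 1 0 X3 1 * b4 1 X4 0 1 * b4 1 0 X5 1 *
      b4 w 0 0 1) * b4 1 0 0 L
      = (b4 1 0 0 Li * b4 1 0 X1 1) * b4 1 X2 0 1 * b4 1 0 X3 1 * b4 1 X4 0 1 * b4 1 0 X5 1 *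
        b4 w 0 0 1 * b4 1 0 0 L := by simp only [mul_assoc]
    _ = b4 1 0 (Li * X1) 1 * (b4 1 0 0 Li * b4 1 X2 0 1) * b4 1 0 X3 1 * b4 1 X4 0 1 *
        b4 1 0 X5 1 * b4 w 0 0 1 * b4 1 0 0 L := by rw [hC]; simp only [mul_assoc]
    _ = b4 1 0 (Li * X1) 1 * b4 1 (X2 * L) 0 1 * (b4 1 0 0 Li * b4 1 0 X3 1) * b4 1 X4 0 1 *
        b4 1 0 X5 1 * b4 w 0 0 1 * b4 1 0 0 L := by rw [hR]; simp only [mul_assoc]
    _ = b4 1 0 (Li * X1) 1 * b4 1 (X2 * L) 0 1 * b4 1 0 (Li * X3) 1 *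
        (b4 1 0 0 Li * b4 1 X4 0 1) * b4 1 0 X5 1 * b4 w 0 0 1 * b4 1 0 0 L := by
          rw [hC]; simp only [mul_assoc]
    _ = b4 1 0 (Li * X1) 1 * b4 1 (X2 * L) 0 1 * b4 1 0 (Li * X3) 1 * b4 1 (X4 * L) 0 1 *
        (b4 1 0 0 Li * b4 1 0 X5 1) * b4 w 0 0 1 * b4 1 0 0 L := by
          rw [hR]; simp only [mul_assoc]
    _ = b4 1 0 (Li * X1) 1 * b4 1 (X2 * L) 0 1 * b4 1 0 (Li * X3) 1 * b4 1 (X4 * L) 0 1 *
        b4 1 0 (Li * X5) 1 * (b4 1 0 0 Li * b4 w 0 0 1) * b4 1 0 0 L := by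
          rw [hC]; simp only [mul_assoc]
    _ = b4 1 0 (Li * X1) 1 * b4 1 (X2 * L) 0 1 * b4 1 0 (Li * X3) 1 * b4 1 (X4 * L) 0 1 *
        b4 1 0 (Li * X5) 1 * b4 w 0 0 1 * (b4 1 0 0 Li * b4 1 0 0 L) := by
          rw [hD]; simp only [mul_assoc]
    _ = _ := by rw [hL, mul_one]

theorem coreOK : CoreOK := by
  intro h A C D s l hh hl hD
  have hl0 : l ≠ 0 := by rintro rfl; norm_num at hl
  obtain ⟨w11, w12, w21, w22, hW, hdetW, hcop, hθ1, hθ2⟩ := w1_facts h A C D s l hh hD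
  obtain ⟨m1, m2, al, b, hal, hb, hbp, hneg, h4, hbl, halb⟩ :=
    Pool.Agent.MP_efa98f_al.H92.letters3 l w11 w12 hl hcop
  have hb0 : b ≠ 0 := by rintro rfl; simp at hneg
  obtain ⟨v21, hv21⟩ : ∃ x, x = w21 + m1 * w22 := ⟨_, rfl⟩
  obtain ⟨dd, hdd⟩ : ∃ x, x = w22 + m2 * v21 := ⟨_, rfl⟩
  have hdetV : al * dd - b * v21 = l := by
    subst hdd hv21 hb hal
    linear_combination hdetW
  obtain ⟨a, c, k, f, g, τ, ha1, ha2, hE, hc, hn, hf1, hf2⟩ :=
    Pool.Agent.MP_efa98f_al.H92.part4 l b al (D 0 1) dd hl hbp hneg h4 hbl halb hD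
      ⟨v21, by linear_combination hdetV⟩
  obtain ⟨μ, hμ⟩ := ha1
  obtain ⟨ν, hν⟩ := ha2
  obtain ⟨φ, hφ⟩ := hf2
  -- the second column modulo `l`
  have hcol : l ∣ D 0 1 * dd - D 1 1 * b := by
    obtain ⟨x1, hx1⟩ := hθ1
    obtain ⟨x2, hx2⟩ := hθ2
    refine ⟨x2 + m2 * (x1 + m1 * x2), ?_⟩
    subst hdd hv21 hb hal
    linear_combination (1 + m1 * m2) * hx2 + m2 * hx1
  have hD11 : l ∣ D 1 1 - a * dd := by
    obtain ⟨x, hx⟩ := hcol
    have : l ∣ b * (D 1 1 - a * dd) := ⟨-x - ν * dd, by linear_combination -hx - dd * hν⟩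
    exact hbl.symm.dvd_of_dvd_mul_left this
  obtain ⟨x, hx⟩ := hD11
  obtain ⟨d', hd'⟩ : ∃ x, x = dd + k * b := ⟨_, rfl⟩
  obtain ⟨s', hs'⟩ : ∃ x, x = s - l * k := ⟨_, rfl⟩
  obtain ⟨t, ht⟩ : ∃ x, x = τ - s' := ⟨_, rfl⟩
  obtain ⟨m3, hm3⟩ : ∃ x, x = μ - s' := ⟨_, rfl⟩
  have c01 : (ll k * D * ll (-k)) 0 1 = D 0 1 := by
    rw [Matrix.mul_apply, Fin.sum_univ_two, Matrix.mul_apply, Matrix.mul_apply, Fin.sum_univ_two,
      Fin.sum_univ_two]
    simp
  have c11 : (ll k * D * ll (-k)) 1 1 = D 1 1 + k * D 0 1 := by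
    rw [Matrix.mul_apply, Fin.sum_univ_two, Matrix.mul_apply, Matrix.mul_apply, Fin.sum_univ_two,
      Fin.sum_univ_two]
    simp
    ring
  have hll : ∀ x : ℤ, ll (-x) * ll x = 1 := by
    intro x
    apply M2_ext <;> simp [Matrix.mul_apply, Fin.sum_univ_two]
  have hll' : ∀ x : ℤ, ll x * ll (-x) = 1 := by
    intro x
    apply M2_ext <;> simp [Matrix.mul_apply, Fin.sum_univ_two]
  have huu : ∀ x : ℤ, uu (-x) * uu x = 1 := by
    intro x
    apply M2_ext <;> simp [Matrix.mul_apply, Fin.sum_univ_two]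
  have huu' : ∀ x : ℤ, uu x * uu (-x) = 1 := by
    intro x
    apply M2_ext <;> simp [Matrix.mul_apply, Fin.sum_univ_two]
  obtain ⟨X1, X2, X3, X4, X5, key⟩ := core2 s' l a b c d' f g τ t A (ll k * C)
    (ll k * D * ll (-k)) (ll m1 * uu m2 * ll m3) (ll (-m3) * uu (-m2) * ll (-m1)) hl0 hc.ne'
    (by rw [hd']; linear_combination hE) hn hf1 (by rw [ht]; ring)
    (by
      rw [c01]
      exact ⟨-ν + φ * (-b), by linear_combination -hν - b * hφ⟩)
    (by
      rw [c11, hd']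
      exact ⟨x - k * ν - φ * (dd + k * b), by
        linear_combination hx - k * hν - (dd + k * b) * hφ⟩)
    (by
      calc ll m1 * uu m2 * ll m3 * (ll (-m3) * uu (-m2) * ll (-m1))
          = ll m1 * (uu m2 * (ll m3 * ll (-m3)) * uu (-m2)) * ll (-m1) := by noncomm_ring
        _ = 1 := by rw [hll', mul_one, huu', mul_one, hll'])
    (by
      calc ll (-m3) * uu (-m2) * ll (-m1) * (ll m1 * uu m2 * ll m3)
          = ll (-m3) * (uu (-m2) * (ll (-m1) * ll m1) * uu m2) * ll m3 := by noncomm_ring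
        _ = 1 := by rw [hll, mul_one, huu, mul_one, hll])
    (by
      have e1 : ll (-k) * !![l, 0; -s', 1] = !![l, 0; -s, 1] := by
        apply M2_ext
        · simp [Matrix.mul_apply, Fin.sum_univ_two]
        · simp [Matrix.mul_apply, Fin.sum_univ_two]
        · simp [Matrix.mul_apply, Fin.sum_univ_two]
          rw [hs']; ring
        · simp [Matrix.mul_apply, Fin.sum_univ_two]
      have e2 : ll k * D * ll (-k) * !![l, 0; -s', 1] * A - l • (ll k * C) =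
          ll k * !![w11, w12; w21, w22] := by
        rw [← hW, ← e1, mul_sub, mul_smul_comm]
        simp only [mul_assoc]
      have e3 : !![w11, w12; w21, w22] * (ll m1 * uu m2) = !![al, b; v21, dd] := by
        apply M2_ext
        · simp [Matrix.mul_apply, Fin.sum_univ_two]
          rw [hal]; ring
        · simp [Matrix.mul_apply, Fin.sum_univ_two]
          rw [hb, hal]; ring
        · simp [Matrix.mul_apply, Fin.sum_univ_two]
          rw [hv21]; ring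
        · simp [Matrix.mul_apply, Fin.sum_univ_two]
          rw [hdd, hv21]; ring
      have e4 : ll m3 * !![1, 0; s', l] = !![1, 0; μ, l] := by
        apply M2_ext
        · simp [Matrix.mul_apply, Fin.sum_univ_two]
        · simp [Matrix.mul_apply, Fin.sum_univ_two]
        · simp [Matrix.mul_apply, Fin.sum_univ_two]
          rw [hm3]; ring
        · simp [Matrix.mul_apply, Fin.sum_univ_two]
      have hc0 : v21 + dd * μ = l * (c - k * a) := by
        apply mul_left_cancel₀ hb0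
        linear_combination -hdetV - dd * hμ + l * hE
      have e5 : !![al, b; v21, dd] * !![1, 0; μ, l] = l • !![a, b; c - k * a, dd] := by
        apply M2_ext
        · simp [Matrix.mul_apply, Fin.sum_univ_two, -zsmul_eq_mul]
          linear_combination -hμ
        · simp [Matrix.mul_apply, Fin.sum_univ_two, -zsmul_eq_mul]
          ring
        · simp [Matrix.mul_apply, Fin.sum_univ_two, -zsmul_eq_mul]
          linear_combination hc0
        · simp [Matrix.mul_apply, Fin.sum_univ_two, -zsmul_eq_mul]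
          ring
      have e6 : ll k * !![a, b; c - k * a, dd] = !![a, b; c, d'] := by
        rw [hd']
        apply M2_ext
        · simp [Matrix.mul_apply, Fin.sum_univ_two]
        · simp [Matrix.mul_apply, Fin.sum_univ_two]
        · simp [Matrix.mul_apply, Fin.sum_univ_two]
        · simp [Matrix.mul_apply, Fin.sum_univ_two]
          ring
      rw [e2]
      calc ll k * !![w11, w12; w21, w22] * (ll m1 * uu m2 * ll m3) * !![1, 0; s', l]
          = ll k * ((!![w11, w12; w21, w22] * (ll m1 * uu m2)) * (ll m3 * !![1, 0; s', l])) := by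
            simp only [mul_assoc]
        _ = l • (ll k * !![a, b; c - k * a, dd]) := by rw [e3, e4, e5, mul_smul_comm]
        _ = _ := by rw [e6])
  have hw : !![d' - t, -1; 1 - (d' - t) * (a + t), a + t] * (ll (-m3) * uu (-m2) * ll (-m1)) =
      ll (1 - (a + t)) * uu (-1) * ll (1 - (d' - t) - m3) * uu (-m2) * ll (-m1) := by
    have e1 : ll (1 - (a + t)) * uu (-1) * ll (1 - (d' - t)) =
        !![d' - t, -1; 1 - (d' - t) * (a + t), a + t] := by
      apply M2_ext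
      · simp [Matrix.mul_apply, Fin.sum_univ_two]
      · simp [Matrix.mul_apply, Fin.sum_univ_two]
      · simp [Matrix.mul_apply, Fin.sum_univ_two]
        ring
      · simp [Matrix.mul_apply, Fin.sum_univ_two]
    have e2 : ll (1 - (d' - t)) * ll (-m3) = ll (1 - (d' - t) - m3) := by
      apply M2_ext
      · simp [Matrix.mul_apply, Fin.sum_univ_two]
      · simp [Matrix.mul_apply, Fin.sum_univ_two]
      · simp [Matrix.mul_apply, Fin.sum_univ_two]
        ring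
      · simp [Matrix.mul_apply, Fin.sum_univ_two]
    rw [← e1, ← e2]
    simp only [mul_assoc]
  rw [hw] at key
  have hM : !![1, 0; s', l] * ll k = !![1, 0; s, l] := by
    rw [hs']
    apply M2_ext
    · simp [Matrix.mul_apply, Fin.sum_univ_two]
    · simp [Matrix.mul_apply, Fin.sum_univ_two]
    · simp [Matrix.mul_apply, Fin.sum_univ_two]
    · simp [Matrix.mul_apply, Fin.sum_univ_two]
  have hconj : h.1 = b4 1 0 0 (ll (-k)) * b4 A !![1, 0; s', l] (ll k * C) (ll k * D * ll (-k)) *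
      b4 1 0 0 (ll k) := by
    rw [hh, b4_mul, b4_mul, ← hM]
    congr 1
    · noncomm_ring
    · noncomm_ring
    · have : ll (-k) * (ll k * C) = C := by rw [← mul_assoc, hll, one_mul]
      simp only [zero_mul, zero_add, mul_zero, add_zero, mul_one, this]
    · have : ll (-k) * (ll k * D * ll (-k)) * ll k = D := by
        calc ll (-k) * (ll k * D * ll (-k)) * ll k = (ll (-k) * ll k) * D * (ll (-k) * ll k) := by
              simp only [mul_assoc]
          _ = D := by rw [hll, one_mul, mul_one]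
      simp only [zero_mul, zero_add, mul_zero, add_zero, this]
  rw [key, conj_five _ _ _ _ _ _ _ _ (hll' k) (hll k)] at hconj
  refine ⟨ll (-k) * X1, X2 * ll k, ll (-k) * X3, X4 * ll k, ll (-k) * X5, 1 - (a + t), -1,
    1 - (d' - t) - m3, -m2, -m1, ?_⟩
  apply Subtype.ext
  rw [hconj]
  simp only [SL_val_mul, CB_val, RB_val, DB_val, Le_val, Ue_val]
  rfl

/-- `SL_4(ℤ)` has length six. -/
theorem four_all (g : SLn 4) : Six g := six_four coreOK g

end Pool.Agent.Lib.MP_efa98f_al
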