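import Pool.Agent.Lib.MP_efa98f_al.CKData

/-! The unit trick with a non-unimodular upper right block. -/

set_option autoImplicit false

namespace Pool.Agent.Lib.MP_efa98f_al

open Matrix

/-- Five block factors, in an arbitrary ring of blocks. -/
theorem five_gen_claims {S : Type*} [Ring S] (K Ki Kh Khi u Z M Y A C D w wi : S)
    (hKi : Ki * K = 1) (hKi' : K * Ki = 1) (h3 : Kh * Khi = 1)
    (h1 : K = 1 + Z * u) (h2 : Kh = 1 + u * Z) (hY : K * D = 1 + Y * M)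
    (hw : wi * w = 1) (hA : Kh * w = A + M * (Y * A) - M * (K * C)) :
    u + Kh * (Khi * (M - u)) = M ∧
    (Ki * (Y - Z)) * M + (1 + Z * (Khi * (M - u))) = D ∧
    (Kh + M * ((K * C - Y * A) * wi)) * w = A ∧
    ((Ki * (Y - Z)) * Kh + Z + D * ((K * C - Y * A) * wi)) * w = C := by
  have e1 : Kh * (Khi * (M - u)) = M - u := by rw [← mul_assoc, h3, one_mul]
  have e2 : K * Z = Z * Kh := by rw [h1, h2]; noncomm_ring
  have e3 : K * (Z * (Khi * (M - u))) = Z * (M - u) := by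
    rw [← mul_assoc, e2, mul_assoc, e1]
  have canc : ∀ x y : S, K * x = K * y → x = y := by
    intro x y h
    calc x = Ki * K * x := by rw [hKi, one_mul]
      _ = Ki * (K * x) := by rw [mul_assoc]
      _ = Ki * (K * y) := by rw [h]
      _ = y := by rw [← mul_assoc, hKi, one_mul]
  have e4 : K * (Ki * (Y - Z)) = Y - Z := by rw [← mul_assoc, hKi', one_mul]
  refine ⟨by rw [e1]; abel, ?_, ?_, ?_⟩
  · apply canc
    have : K * ((Ki * (Y - Z)) * M + (1 + Z * (Khi * (M - u)))) =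
        (K * (Ki * (Y - Z))) * M + K + K * (Z * (Khi * (M - u))) := by noncomm_ring
    rw [this, e4, e3, hY]
    nth_rewrite 1 [h1]
    noncomm_ring
  · have : (Kh + M * ((K * C - Y * A) * wi)) * w =
        Kh * w + M * ((K * C - Y * A) * (wi * w)) := by noncomm_ring
    rw [this, hw, hA]
    noncomm_ring
  · apply canc
    have : K * (((Ki * (Y - Z)) * Kh + Z + D * ((K * C - Y * A) * wi)) * w) =
        (K * (Ki * (Y - Z))) * (Kh * w) + (K * Z) * w + (K * D) * ((K * C - Y * A) * (wi * w)) := by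
      noncomm_ring
    rw [this, e4, e2, hw, hY]
    have h5 : (Y - Z) * (Kh * w) + Z * Kh * w + (1 + Y * M) * ((K * C - Y * A) * 1) =
        Y * (Kh * w) + (K * C - Y * A) + Y * (M * (K * C - Y * A)) := by noncomm_ring
    rw [h5, hA]
    noncomm_ring

theorem five_gen (K Ki Kh Khi u Z M Y A C D w wi : M2)
    (hKi : Ki * K = 1) (hKi' : K * Ki = 1) (h3 : Kh * Khi = 1)
    (h1 : K = 1 + Z * u) (h2 : Kh = 1 + u * Z) (hY : K * D = 1 + Y * M)
    (hw : wi * w = 1) (hA : Kh * w = A + M * (Y * A) - M * (K * C)) :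
    b4 A M C D = b4 1 0 (Ki * (Y - Z)) 1 * b4 1 u 0 1 * b4 1 0 Z 1 *
      b4 1 (Khi * (M - u)) 0 1 * b4 1 0 ((K * C - Y * A) * wi) 1 * b4 w 0 0 1 := by
  obtain ⟨c1, c2, c3, c4⟩ := five_gen_claims K Ki Kh Khi u Z M Y A C D w wi hKi hKi' h3 h1 h2 hY
    hw hA
  obtain ⟨x4, hx4⟩ : ∃ x4, x4 = Khi * (M - u) := ⟨_, rfl⟩
  obtain ⟨y, hy⟩ : ∃ y, y = Ki * (Y - Z) := ⟨_, rfl⟩
  obtain ⟨z, hz⟩ : ∃ z, z = (K * C - Y * A) * wi := ⟨_, rfl⟩
  rw [← hx4] at c1 c2 ⊢
  rw [← hy] at c2 c4 ⊢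
  rw [← hz] at c3 c4 ⊢
  have s1 : b4 1 0 y 1 * b4 1 u 0 1 * b4 1 0 Z 1 = b4 Kh u (y * Kh + Z) (y * u + 1) := by
    rw [b4_mul, b4_mul, h2]
    congr 1
    · noncomm_ring
    · noncomm_ring
    · noncomm_ring
    · noncomm_ring
  have s2 : b4 Kh u (y * Kh + Z) (y * u + 1) * b4 1 x4 0 1 = b4 Kh M (y * Kh + Z) D := by
    rw [b4_mul]
    congr 1
    · noncomm_ring
    · rw [mul_one, add_comm, c1]
    · noncomm_ring
    · rw [← c2]
      have : (y * Kh + Z) * x4 + (y * u + 1) * 1 = y * (u + Kh * x4) + (1 + Z * x4) := by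
        noncomm_ring
      rw [this, c1]
  have s3 : b4 Kh M (y * Kh + Z) D * b4 1 0 z 1 = b4 (Kh + M * z) M (y * Kh + Z + D * z) D := by
    rw [b4_mul]
    congr 1
    · noncomm_ring
    · noncomm_ring
    · noncomm_ring
    · noncomm_ring
  rw [s1, s2, s3, b4_mul]
  congr 1
  · rw [mul_zero, add_zero, c3]
  · rw [mul_zero, mul_one, zero_add]
  · rw [mul_zero, add_zero, c4]
  · rw [mul_zero, mul_one, zero_add]

end Pool.Agent.Lib.MP_efa98f_al
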